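import Mathlib
import Pool.Agent.Q51.VX.Asm
import Pool.Agent.Q51.VY.Ind
import Pool.Agent.Q51.VZ.Germ

set_option autoImplicit false
set_option maxHeartbeats 1000000

/-!
# The truncated inequality for points that are short sums of S-units, the forms vary with the point
-/

namespace Pool.Agent.Q51.VZ

open MvPolynomial Filter Topology Pool.Agent.TH932.Germs Pool.Agent.TH551.SU
open Pool.Agent.TH551.SU.SUI Pool.Agent.Y724.Vj Pool.Agent.TH551.SU.CRV
open Pool.Agent.H533R3.SL Pool.Agent.Q51.VX Pool.Agent.Q51.VY Pool.Agent.Q51.HG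
open Pool.Agent.TH182.VD (CI)

/-! ### Germs of forms -/

section forms

variable {L : ℕ → ℝ} {n q : ℕ}

theorem aeval_gmZ {ι : Type} (X : ι → ℕ → ℚ) (F : MvPolynomial ι ℤ) :
    aeval (fun i => gm (X i)) F = gm (fun t => aeval (fun i => X i t) F) := by
  have h1 := aeval_gm' X (map (Int.castRingHom ℚ) F)
  have h2 : aeval (fun i => gm (X i)) (map (Int.castRingHom ℚ) F) =
      aeval (fun i => gm (X i)) F := by
    rw [aeval_def, aeval_def, eval₂_map]
    congr 1
    exact Subsingleton.elim _ _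
  have h3 : ∀ t, aeval (fun i => X i t) (map (Int.castRingHom ℚ) F) =
      aeval (fun i => X i t) F := by
    intro t
    rw [aeval_def, aeval_def, eval₂_map]
    congr 1
  rw [h2] at h1
  rw [h1]
  simp only [h3]

/-- the germ of a sequence of forms with negligible coefficients -/
noncomputable def gform (hL : Tendsto L atTop atTop) (d : Fin q → ℕ)
    (a : Fin q → (Fin (n + 1) →₀ ℕ) → KK L hL) (i : Fin q) :
    MvPolynomial (Fin (n + 1)) (KK L hL) :=
  ∑ α ∈ expo n (d i), monomial α (a i α)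

variable (hL : Tendsto L atTop atTop) (d : Fin q → ℕ)
  (a : Fin q → (Fin (n + 1) →₀ ℕ) → KK L hL)

theorem coeff_gform (i : Fin q) (α : Fin (n + 1) →₀ ℕ) (hα : α.degree = d i) :
    coeff α (gform hL d a i) = a i α := by
  classical
  unfold gform
  rw [coeff_sum]
  simp only [coeff_monomial]
  rw [Finset.sum_ite_eq', if_pos (mem_expo.2 hα)]

theorem gform_hom (i : Fin q) : (gform hL d a i).IsHomogeneous (d i) := by
  unfold gform
  refine MvPolynomial.IsHomogeneous.sum _ _ _ fun α hα => ?_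
  exact isHomogeneous_monomial _ (mem_expo.1 hα)

variable (F : ℕ → Fin q → MvPolynomial (Fin (n + 1)) ℤ)
  (hF : ∀ t i, (F t i).IsHomogeneous (d i))
  (ha : ∀ i α, (a i α : GG) = gm (fun t => ((coeff α (F t i) : ℤ) : ℚ)))

include hF ha

theorem eval_gform (x : ℕ → Fin (n + 1) → ℤ) (i : Fin q) :
    aeval (fun y => gm (fun t => (x t y : ℚ))) (map (KK L hL).subtype (gform hL d a i)) =
      gm (fun t => ((eval (x t) (F t i) : ℤ) : ℚ)) := by
  classical
  have h1 : map (KK L hL).subtype (gform hL d a i) =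
      ∑ α ∈ expo n (d i), monomial α (gm (fun t => ((coeff α (F t i) : ℤ) : ℚ))) := by
    unfold gform
    rw [map_sum]
    refine Finset.sum_congr rfl fun α _ => ?_
    rw [map_monomial]
    congr 1
    exact ha i α
  rw [h1, map_sum]
  have h2 : ∀ α ∈ expo n (d i), aeval (fun y => gm (fun t => (x t y : ℚ)))
      (monomial α (gm (fun t => ((coeff α (F t i) : ℤ) : ℚ)))) =
      gm (fun t => ((coeff α (F t i) : ℤ) : ℚ) * ∏ y, (x t y : ℚ) ^ α y) := by
    intro α _
    rw [aeval_monomial, Finsupp.prod_fintype _ _ (by simp)]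
    change gm _ * ∏ y, gm (fun t => (x t y : ℚ)) ^ α y = _
    simp only [gm_pow]
    rw [gm_prod', gm_mul]
  rw [Finset.sum_congr rfl h2, gm_sum']
  congr 1
  funext t
  rw [eval_eq']
  push_cast
  symm
  apply Finset.sum_subset
  · intro α hα
    rw [mem_expo, Finsupp.degree_eq_weight_one]
    exact hF t i (mem_support_iff.1 hα)
  · intro α _ hα
    rw [notMem_support_iff.1 hα]
    simp

omit hF in
theorem sp_gform (h : MvPolynomial (CI n d) ℤ) :
    sp d (fun i => map (KK L hL).subtype (gform hL d a i)) h =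
      gm (fun t => ((sp d (F t) h : ℤ) : ℚ)) := by
  have h1 : (fun x : CI n d => coeff x.2.1 (map (KK L hL).subtype (gform hL d a x.1))) =
      fun x : CI n d => gm (fun t => ((coeff x.2.1 (F t x.1) : ℤ) : ℚ)) := by
    funext x
    rw [coeff_map, coeff_gform hL d a x.1 x.2.1 x.2.2]
    exact ha x.1 x.2.1
  unfold sp
  rw [h1, aeval_gmZ]
  congr 1
  funext t
  exact aeval_algebraMap_apply ℚ (fun x : CI n d => coeff x.2.1 (F t x.1)) h

end forms

/-- the statement for sums of `r` terms -/
def QQG {s n q ν : ℕ} (b : Fin s → ℕ) (hb : ∀ v, (b v).Prime) (κ : ℝ) (Z : Finset (Fin q))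
    (d : Fin q → ℕ) (h : MvPolynomial (CI n d) ℤ) (ea eb : Fin q → Fin (ν + 1) → ℕ)
    (Pu : Finset (Fin (ν + 1))) (A0 B ε : ℝ) (r : ℕ) : Prop :=
  ∃ (δ C : ℝ), 0 < δ ∧ ∀ (F : Fin q → MvPolynomial (Fin (n + 1)) ℤ) (x : Fin (n + 1) → ℤ)
    (y : Fin (ν + 1) → ℚ), (∀ i, (F i).IsHomogeneous (d i)) → sp d F h ≠ 0 →
    (∀ i α, |((coeff α (F i) : ℤ) : ℝ)| ≤ B * (hh x : ℝ) ^ δ) → Finset.univ.gcd x = 1 →
    (∀ l', y l' ≠ 0) → (∀ l' ∈ Pu, IsSU b (y l')) →
    (∀ l', eta (y l') ≤ A0 * (Real.log (hh x) + 1)) →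
    (∀ i ∈ Z, eval x (F i) = 0) →
    (∀ i, i ∉ Z → ((eval x (F i) : ℤ) : ℚ) * ∏ l', y l' ^ ea i l' =
      ∏ l', y l' ^ eb i l') → Short2 b r B δ Pu x y →
    κ * Real.log (hh x) ≤ ∑ l', ∑ v, Real.log (wv b hb v (y l')) +
      (ε * Real.log (hh x) + C)

theorem step_QQG {s : ℕ} (b : Fin s → ℕ) (hb : ∀ v, (b v).Prime) (hbi : Function.Injective b)
    {n q ν : ℕ} (D : ℕ) (hD : 1 ≤ D) (d : Fin q → ℕ) (Z : Finset (Fin q)) (κ : ℝ) (hκ0 : 0 ≤ κ)
    (h : MvPolynomial (CI n d) ℤ) (ea eb : Fin q → Fin (ν + 1) → ℕ) (hab : ∀ i, i ∉ Z → d i + ∑ l', ea i l' = ∑ l', eb i l')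
    (Pu : Finset (Fin (ν + 1))) (A0 : ℝ) (hA0 : 0 ≤ A0)
    (B : ℝ) (hB : 1 ≤ B) (ε : ℝ) (hε : 0 < ε) (r : ℕ)
    (htype : ∀ F : Fin q → MvPolynomial (Fin (n + 1)) GG, (∀ i, (F i).IsHomogeneous (d i)) →
      sp d F h ≠ 0 → TypeIneqG κ D Z F ea eb (r + (ν + 1)))
    (ih : ∀ r' < r, QQG b hb κ Z d h ea eb Pu A0 B ε r') : QQG b hb κ Z d h ea eb Pu A0 B ε r := by
  classical
  by_contra hcon
  unfold QQG at hcon
  push Not at hcon
  choose F x y hF hFh hFc hprim hy0 hyu hyeta hxZ hxE hsh hviol using fun t : ℕ =>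
    hcon (1 / ((t : ℝ) + 1)) t (by positivity)
  choose uq m m' huqSU hm hm' hx hy using hsh
  -- the scale
  set lh : ℕ → ℝ := fun t => Real.log (hh (x t) : ℝ) + Real.log ((t : ℝ) + 1) with hlh
  set L : ℕ → ℝ := fun t => lh t + ∑ j, eta (uq t j) with hLdef
  have hHpos : ∀ t, (1 : ℝ) ≤ hh (x t) := fun t => by exact_mod_cast hh_pos (x t) (hprim t)
  have hlH0 : ∀ t, 0 ≤ Real.log (hh (x t) : ℝ) := fun t => Real.log_nonneg (hHpos t)
  have hlt0 : ∀ t : ℕ, 0 ≤ Real.log ((t : ℝ) + 1) := fun t =>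
    Real.log_nonneg (by have : (0 : ℝ) ≤ t := Nat.cast_nonneg t; linarith)
  have hes0 : ∀ t, 0 ≤ ∑ j, eta (uq t j) := fun t => Finset.sum_nonneg fun j _ => eta_nonneg _
  have hLge : ∀ t : ℕ, Real.log ((t : ℝ) + 1) ≤ L t := by
    intro t
    have h2 := hlH0 t
    have h3 := hes0 t
    change Real.log ((t : ℝ) + 1) ≤ (Real.log (hh (x t) : ℝ) + Real.log ((t : ℝ) + 1)) +
      ∑ j, eta (uq t j)
    linarith
  have hLge2 : ∀ t, Real.log (hh (x t) : ℝ) ≤ L t := by
    intro t
    have h2 := hlt0 t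
    have h3 := hes0 t
    change Real.log (hh (x t) : ℝ) ≤ (Real.log (hh (x t) : ℝ) + Real.log ((t : ℝ) + 1)) +
      ∑ j, eta (uq t j)
    linarith
  have hL1 : Tendsto (fun t : ℕ => Real.log ((t : ℝ) + 1)) atTop atTop :=
    Real.tendsto_log_atTop.comp (tendsto_atTop_add_const_right _ _ tendsto_natCast_atTop_atTop)
  have hL : Tendsto L atTop atTop := tendsto_atTop_mono hLge hL1
  -- the germs
  set U : Fin r → GG := fun j => gm (fun t => uq t j) with hU
  have hUS : ∀ j, GSU b (U j) := fun j => ⟨_, rfl, fun t => huqSU t j⟩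
  have hU0 : ∀ j, U j ≠ 0 := fun j => gsu_ne_zero hb (hUS j)
  have heL : ∀ t j, eta (uq t j) ≤ L t := by
    intro t j
    have h1 := Finset.single_le_sum (f := fun j => eta (uq t j)) (fun j _ => eta_nonneg _)
      (Finset.mem_univ j)
    have h2 := hlH0 t
    have h3 := hlt0 t
    change eta (uq t j) ≤ (Real.log (hh (x t) : ℝ) + Real.log ((t : ℝ) + 1)) +
      ∑ j, eta (uq t j)
    linarith
  have hbd : ∀ j, Bd L (U j) := fun j =>
    bd_of_eta _ 1 (Eventually.of_forall fun t => by rw [one_mul]; exact heL t j)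
  have hneg : ∀ (μ : ℕ → ℤ), (∀ t, |(μ t : ℝ)| ≤ B * (hh (x t) : ℝ) ^ (1 / ((t : ℝ) + 1))) →
      Negl L μ := by
    intro μ hμ ε' hε'
    have h1 : ∀ᶠ t : ℕ in atTop, Real.log B ≤ ε' / 2 * L t := by
      filter_upwards [hL.eventually_ge_atTop (Real.log B / (ε' / 2))] with t ht
      rw [div_le_iff₀ (by positivity)] at ht
      linarith
    have h2 : ∀ᶠ t : ℕ in atTop, 1 / ((t : ℝ) + 1) ≤ ε' / 2 := by
      have h3 : Tendsto (fun t : ℕ => 1 / ((t : ℝ) + 1)) atTop (𝓝 0) :=
        tendsto_one_div_add_atTop_nhds_zero_nat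
      exact (h3.eventually (gt_mem_nhds (show (0 : ℝ) < ε' / 2 by positivity))).mono
        fun t ht => ht.le
    filter_upwards [ev_of_atTop h1, ev_of_atTop h2] with t h3 h4
    refine (hμ t).trans ?_
    have h5 : (hh (x t) : ℝ) ^ (1 / ((t : ℝ) + 1)) ≤ Real.exp (ε' / 2 * L t) := by
      rw [Real.rpow_def_of_pos (lt_of_lt_of_le one_pos (hHpos t))]
      apply Real.exp_le_exp.2
      rw [mul_comm]
      exact mul_le_mul h4 (hLge2 t) (hlH0 t) (by positivity)
    have h6 : B ≤ Real.exp (ε' / 2 * L t) := by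
      rw [← Real.exp_log (lt_of_lt_of_le one_pos hB)]
      exact Real.exp_le_exp.2 h3
    calc B * (hh (x t) : ℝ) ^ (1 / ((t : ℝ) + 1)) ≤
        Real.exp (ε' / 2 * L t) * Real.exp (ε' / 2 * L t) :=
          mul_le_mul h6 h5 (Real.rpow_nonneg (Nat.cast_nonneg _) _) (Real.exp_pos _).le
      _ = Real.exp (ε' * L t) := by rw [← Real.exp_add]; ring_nf
  have hmN : ∀ j i, Negl L (fun t => m t j i) := fun j i => hneg _ fun t => hm t j i
  have hFN : ∀ i α, Negl L (fun t => coeff α (F t i)) := fun i α => hneg _ fun t => hFc t i α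
  have hmN' : ∀ j l', Negl L (fun t => m' t j l') := fun j l' => hneg _ fun t => hm' t j l'
  have hNK : ∀ m' : ℕ → ℤ, Negl L m' → gm (fun t => (m' t : ℚ)) ∈ KK L hL := fun m' hm' =>
    ⟨_, _, hm', Negl.one hL, by simp, by
      congr 1
      funext t
      simp⟩
  set V : Fin r → Fin (n + 1) → KK L hL := fun j y => ⟨_, hNK _ (hmN j y)⟩ with hV
  set W : Fin r → Fin (ν + 1) → KK L hL := fun j y => ⟨_, hNK _ (hmN' j y)⟩ with hW
  set FK : Fin q → MvPolynomial (Fin (n + 1)) (KK L hL) :=
    gform hL d (fun i α => ⟨_, hNK _ (hFN i α)⟩) with hFK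
  have hFKh : ∀ i, (FK i).IsHomogeneous (d i) := fun i => gform_hom hL d _ i
  have hFKe : ∀ i, aeval (fun y => gm (fun t => (x t y : ℚ)))
      (map (KK L hL).subtype (FK i)) = gm (fun t => ((eval (x t) (F t i) : ℤ) : ℚ)) :=
    fun i => eval_gform hL d _ F hF (fun _ _ => rfl) x i
  have hFKs : sp d (fun i => map (KK L hL).subtype (FK i)) h ≠ 0 := by
    rw [hFK, sp_gform hL d _ F (fun _ _ => rfl) h, gm_ne_zero]
    exact Eventually.of_forall fun t => by exact_mod_cast hFh t
  set X : Fin (n + 1) → GG := fun y => gm (fun t => (x t y : ℚ)) with hX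
  set Y : Fin (ν + 1) → GG := fun l' => gm (fun t => y t l') with hY
  have hXs : ∀ y, X y = ∑ j, U j * (V j y : GG) := by
    intro y
    have h1 : ∀ j, U j * (V j y : GG) = gm (fun t => uq t j * m t j y) := fun j => by
      rw [← gm_mul]
    rw [Finset.sum_congr rfl fun j _ => h1 j, gm_sum', hX]
    simp only
    congr 1
    funext t
    exact hx t y
  have hYs : ∀ l', l' ∉ Pu → Y l' = ∑ j, U j * (W j l' : GG) := by
    intro l' hl'
    have h1 : ∀ j, U j * (W j l' : GG) = gm (fun t => uq t j * m' t j l') := fun j => by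
      rw [← gm_mul]
    rw [Finset.sum_congr rfl fun j _ => h1 j, gm_sum', hY]
    simp only
    congr 1
    funext t
    exact hy t l' hl'
  by_cases hcase : ∃ A : ℕ, ∀ᶠ t in (UU : Filter ℕ), L t ≤ ((A : ℝ) + 1) * lh t
  · -- the main case
    obtain ⟨A, hA⟩ := hcase
    have hmin : 0 < min ε 1 := lt_min hε one_pos
    -- all the terms
    let uq' : ℕ → Fin (r + (ν + 1)) → ℚ := fun t =>
      Fin.append (uq t) (fun l' => if l' ∈ Pu then y t l' else 1)
    let V' : Fin (r + (ν + 1)) → Fin (n + 1) → KK L hL := Fin.append V (fun _ _ => 0)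
    let m'' : Fin (r + (ν + 1)) → Fin (n + 1) → ℕ → ℤ :=
      Fin.append (fun j i t => m t j i) (fun _ _ _ => 0)
    let W' : Fin (r + (ν + 1)) → Fin (ν + 1) → KK L hL :=
      Fin.append (fun j l' => if l' ∈ Pu then 0 else W j l')
        (fun l'' l' => if l' = l'' ∧ l' ∈ Pu then 1 else 0)
    have huq' : ∀ t j, IsSU b (uq' t j) := by
      intro t j
      refine Fin.addCases (fun j => ?_) (fun l' => ?_) j
      · simp only [uq', Fin.append_left]
        exact huqSU t j
      · simp only [uq', Fin.append_right]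
        split_ifs with h
        · exact hyu t l' h
        · exact IsSU.one
    have hbd' : ∀ j, Bd L (gm fun t => uq' t j) := by
      intro j
      refine Fin.addCases (fun j => ?_) (fun l' => ?_) j
      · simp only [uq', Fin.append_left]
        exact hbd j
      · simp only [uq', Fin.append_right]
        split_ifs with h
        · refine bd_of_eta _ (2 * A0) ?_
          filter_upwards [ev_of_atTop (hL.eventually_ge_atTop 1)] with t ht
          refine (hyeta t l').trans ?_
          have h1 := hLge2 t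
          have h2 : A0 * (Real.log (hh (x t)) + 1) ≤ A0 * (L t + L t) :=
            mul_le_mul_of_nonneg_left (by linarith) hA0
          linarith
        · rw [gm_one]
          exact Bd.one hL
    have key := germ_ineqG b hb hbi hL D hD d Z κ hκ0 FK hFKh ea eb hab
      (htype _ (fun i => (hFKh i).map _) hFKs) x hprim y hy0 uq' huq'
      hbd' m'' V' (by
        intro j i
        refine Fin.addCases (fun j => ?_) (fun l' => ?_) j
        · simp only [V', m'', Fin.append_left]
          rfl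
        · simp only [V', m'', Fin.append_right]
          rw [ZeroMemClass.coe_zero, Int.cast_zero]
          exact gm_zero.symm) W' (by
        intro i
        rw [Fin.sum_univ_add]
        simp only [uq', V', Fin.append_left, Fin.append_right, ZeroMemClass.coe_zero, mul_zero,
          Finset.sum_const_zero, add_zero]
        exact hXs i) (by
        intro l'
        rw [Fin.sum_univ_add]
        simp only [uq', W', Fin.append_left, Fin.append_right]
        by_cases hl' : l' ∈ Pu
        · simp only [hl', and_true, if_true, ZeroMemClass.coe_zero, mul_zero,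
            Finset.sum_const_zero, zero_add]
          rw [Finset.sum_eq_single l']
          · simp [hl']
          · intro l'' _ hne
            rw [if_neg (Ne.symm hne), ZeroMemClass.coe_zero, mul_zero]
          · intro h
            exact absurd (Finset.mem_univ _) h
        · simp only [hl', and_false, if_false, ZeroMemClass.coe_zero, mul_zero,
            Finset.sum_const_zero, add_zero]
          exact hYs l' hl')
      (fun i hi => by
        rw [hFKe, ← gm_zero]
        congr 1
        funext t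
        rw [hxZ t i hi, Int.cast_zero])
      (fun i hi => by
        rw [hFKe]
        simp only [gm_pow]
        rw [gm_prod', gm_prod', gm_mul]
        congr 1
        funext t
        exact hxE t i hi)
      (min ε 1 / ((A : ℝ) + 1)) (by positivity)
    obtain ⟨t, h4, h5⟩ := (key.and hA).exists
    have h6 := hviol t
    have hA0 : (0 : ℝ) < (A : ℝ) + 1 := by positivity
    have h7 : min ε 1 / ((A : ℝ) + 1) * L t ≤ min ε 1 * lh t := by
      rw [div_mul_eq_mul_div, div_le_iff₀ hA0]
      have := mul_le_mul_of_nonneg_left h5 hmin.le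
      linarith
    have h8 : min ε 1 * lh t ≤ ε * Real.log (hh (x t) : ℝ) + t := by
      rw [hlh]
      simp only
      rw [mul_add]
      have h9 : min ε 1 * Real.log (hh (x t) : ℝ) ≤ ε * Real.log (hh (x t) : ℝ) :=
        mul_le_mul_of_nonneg_right (min_le_left _ _) (hlH0 t)
      have h10 : min ε 1 * Real.log ((t : ℝ) + 1) ≤ 1 * Real.log ((t : ℝ) + 1) :=
        mul_le_mul_of_nonneg_right (min_le_right _ _) (hlt0 t)
      have h11 : Real.log ((t : ℝ) + 1) ≤ t := by
        have h12 : (0 : ℝ) < (t : ℝ) + 1 := by positivity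
        have := Real.log_le_sub_one_of_pos h12
        linarith
      linarith
    linarith
  · -- the height of the point is negligible
    push Not at hcase
    have hsmall : ∀ ε' : ℝ, 0 < ε' → ∀ᶠ t in (UU : Filter ℕ), lh t ≤ ε' * L t := by
      intro ε' hε'
      obtain ⟨A, hA⟩ := exists_nat_ge (1 / ε')
      filter_upwards [hcase A] with t ht
      have hlh0 : 0 ≤ lh t := add_nonneg (hlH0 t) (hlt0 t)
      have h1 : 1 / ε' * lh t ≤ L t := by nlinarith
      rw [one_div, inv_mul_le_iff₀ hε'] at h1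
      exact h1
    have hXK : ∀ y, X y ∈ KK L hL := by
      intro y
      apply hNK
      intro ε' hε'
      filter_upwards [hsmall ε' hε'] with t ht
      refine (le_hh (x t) y).trans ?_
      rw [← Real.exp_log (lt_of_lt_of_le one_pos (hHpos t))]
      apply Real.exp_le_exp.2
      have := hlt0 t
      rw [hlh] at ht
      simp only at ht
      linarith
    have hYK : ∀ l', Y l' ∈ KK L hL := by
      intro l'
      apply kk_of_eta
      intro ε' hε'
      have h1 : (0 : ℝ) < A0 + 1 := by linarith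
      filter_upwards [hsmall (ε' / (2 * (A0 + 1))) (by positivity),
        ev_of_atTop (hL.eventually_ge_atTop (1 / (ε' / (2 * (A0 + 1)))))] with t ht ht2
      refine (hyeta t l').trans ?_
      have h2 : Real.log (hh (x t) : ℝ) ≤ ε' / (2 * (A0 + 1)) * L t := by
        have := hlt0 t
        rw [hlh] at ht
        simp only at ht
        linarith
      have h3 : 1 ≤ ε' / (2 * (A0 + 1)) * L t := by
        rw [div_le_iff₀ (by positivity)] at ht2
        linarith
      have h4 : A0 * (Real.log (hh (x t)) + 1) ≤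
          (A0 + 1) * (ε' / (2 * (A0 + 1)) * L t + ε' / (2 * (A0 + 1)) * L t) := by
        refine mul_le_mul (by linarith) (by linarith) ?_ h1.le
        have := hlH0 t
        linarith
      refine h4.trans (le_of_eq ?_)
      field_simp
      ring
    set J1 : Finset (Fin r) := Finset.univ.filter fun j => U j ∈ KK L hL with hJ1
    have hJ1m : ∀ j, j ∈ J1 ↔ U j ∈ KK L hL := fun j => by rw [hJ1, Finset.mem_filter]; simp
    have hWX : ∀ y, X y = ∑ j ∈ J1, U j * (V j y : GG) := fun y =>
      red_class b hb hbi hL U hUS (fun j => V j y) (X y) (hXK y) (hXs y) J1 hJ1m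
    have hWY : ∀ l', l' ∉ Pu → Y l' = ∑ j ∈ J1, U j * (W j l' : GG) := fun l' hl' =>
      red_class b hb hbi hL U hUS (fun j => W j l') (Y l') (hYK l') (hYs l' hl') J1 hJ1m
    -- the class is proper
    have hcard : J1.card < r := by
      by_contra hge
      have h1 : J1 = Finset.univ := by
        apply Finset.eq_univ_of_card
        have := J1.card_le_univ
        rw [Fintype.card_fin] at this ⊢
        omega
      have h3 : ∀ j, U j ∈ KK L hL := by
        intro j
        have : j ∈ J1 := by rw [h1]; exact Finset.mem_univ _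
        exact (Finset.mem_filter.1 this).2
      have h4 : ∀ ε' : ℝ, 0 < ε' → ∀ᶠ t in (UU : Filter ℕ), ∀ j, eta (uq t j) ≤ ε' * L t := by
        intro ε' hε'
        refine eventually_all.2 fun j => ?_
        obtain ⟨h5, h6⟩ := (mem_KK_iff hL _).1 (h3 j)
        filter_upwards [h5 ε' hε', h6 ε' hε', L_nonneg hL] with t h7 h8 h9
        unfold eta
        rw [Int.cast_natCast, abs_of_nonneg (Nat.cast_nonneg _)] at h8
        have h10 : (1 : ℝ) ≤ (uq t j).den := by exact_mod_cast (uq t j).pos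
        have h11 : 0 < max |((uq t j).num : ℝ)| ((uq t j).den : ℝ) :=
          lt_of_lt_of_le one_pos (le_max_of_le_right h10)
        rw [Real.log_le_iff_le_exp h11]
        exact max_le h7 h8
      have hr0 : (0 : ℝ) < (r : ℝ) + 1 := by positivity
      obtain ⟨t, h5, h6, h7⟩ := ((hsmall (1 / 4) (by norm_num)).and
        ((h4 (1 / (4 * ((r : ℝ) + 1))) (by positivity)).and
          (ev_of_atTop (hL.eventually_gt_atTop 0)))).exists
      have h8 : ∑ j, eta (uq t j) ≤ (r : ℝ) * (1 / (4 * ((r : ℝ) + 1)) * L t) := by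
        refine (Finset.sum_le_sum fun j _ => h6 j).trans (le_of_eq ?_)
        rw [Finset.sum_const, Finset.card_univ, Fintype.card_fin, nsmul_eq_mul]
      have h9 : (r : ℝ) * (1 / (4 * ((r : ℝ) + 1)) * L t) ≤ 1 / 4 * L t := by
        have h10 : (r : ℝ) * (1 / (4 * ((r : ℝ) + 1))) ≤ 1 / 4 := by
          rw [mul_one_div, div_le_div_iff₀ (by positivity) (by norm_num)]
          linarith
        have := mul_le_mul_of_nonneg_right h10 h7.le
        linarith
      have h10 : L t = lh t + ∑ j, eta (uq t j) := rfl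
      linarith
    -- the shorter sum
    obtain ⟨δ', C', hδ', hQQ⟩ := ih J1.card hcard
    have hrep : ∀ᶠ t in (UU : Filter ℕ), ∀ y, (x t y : ℚ) = ∑ j ∈ J1, uq t j * m t j y := by
      refine eventually_all.2 fun y => ?_
      have h1 := hWX y
      rw [hX] at h1
      simp only at h1
      have h2 : ∀ j, U j * (V j y : GG) = gm (fun t => uq t j * m t j y) := fun j => by
        rw [← gm_mul]
      rw [Finset.sum_congr rfl fun j _ => h2 j, gm_sum', gm_eq] at h1
      exact h1
    have hrepY : ∀ᶠ t in (UU : Filter ℕ), ∀ l', l' ∉ Pu →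
        y t l' = ∑ j ∈ J1, uq t j * m' t j l' := by
      refine eventually_all.2 fun l' => ?_
      by_cases hl' : l' ∈ Pu
      · exact Eventually.of_forall fun t h => absurd hl' h
      · have h1 := hWY l' hl'
        rw [hY] at h1
        simp only at h1
        have h2 : ∀ j, U j * (W j l' : GG) = gm (fun t => uq t j * m' t j l') := fun j => by
          rw [← gm_mul]
        rw [Finset.sum_congr rfl fun j _ => h2 j, gm_sum', gm_eq] at h1
        exact h1.mono fun t ht _ => ht
    have hδt : ∀ᶠ t : ℕ in (UU : Filter ℕ), 1 / ((t : ℝ) + 1) ≤ δ' := by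
      apply ev_of_atTop
      have h3 : Tendsto (fun t : ℕ => 1 / ((t : ℝ) + 1)) atTop (𝓝 0) :=
        tendsto_one_div_add_atTop_nhds_zero_nat
      exact (h3.eventually (gt_mem_nhds hδ')).mono fun t ht => ht.le
    have hCt : ∀ᶠ t : ℕ in (UU : Filter ℕ), C' ≤ t :=
      ev_of_atTop (tendsto_natCast_atTop_atTop.eventually_ge_atTop C')
    obtain ⟨t, h1, h2, h3, h4⟩ := (hrep.and (hrepY.and (hδt.and hCt))).exists
    have hmono : B * (hh (x t) : ℝ) ^ (1 / ((t : ℝ) + 1)) ≤ B * (hh (x t) : ℝ) ^ δ' :=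
      mul_le_mul_of_nonneg_left (Real.rpow_le_rpow_of_exponent_le (hHpos t) h3) (by linarith)
    have h6 : Short2 b J1.card B δ' Pu (x t) (y t) := by
      let eJ := (J1.equivFin).symm
      refine ⟨fun i => uq t (eJ i), fun i => m t (eJ i), fun i => m' t (eJ i),
        fun i => huqSU t _, fun i y => (hm t (eJ i) y).trans hmono,
        fun i y => (hm' t (eJ i) y).trans hmono, ?_, ?_⟩
      · intro y
        rw [h1 y, ← Finset.sum_coe_sort J1 (fun j => uq t j * (m t j y : ℚ)),
          ← Equiv.sum_comp eJ]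
      · intro l' hl'
        rw [h2 l' hl', ← Finset.sum_coe_sort J1 (fun j => uq t j * (m' t j l' : ℚ)),
          ← Equiv.sum_comp eJ]
    have h7 := hQQ (F t) (x t) (y t) (hF t) (hFh t) (fun i α => (hFc t i α).trans hmono)
      (hprim t) (hy0 t) (hyu t) (hyeta t) (hxZ t) (hxE t) h6
    have h8 := hviol t
    linarith

/-- the statement for all numbers of terms -/
theorem all_QQG {s : ℕ} (b : Fin s → ℕ) (hb : ∀ v, (b v).Prime) (hbi : Function.Injective b)
    {n q ν : ℕ} (D : ℕ) (hD : 1 ≤ D) (d : Fin q → ℕ) (Z : Finset (Fin q)) (κ : ℝ) (hκ0 : 0 ≤ κ)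
    (h : MvPolynomial (CI n d) ℤ) (ea eb : Fin q → Fin (ν + 1) → ℕ) (hab : ∀ i, i ∉ Z → d i + ∑ l', ea i l' = ∑ l', eb i l')
    (Pu : Finset (Fin (ν + 1))) (A0 : ℝ) (hA0 : 0 ≤ A0)
    (B : ℝ) (hB : 1 ≤ B) (ε : ℝ) (hε : 0 < ε) (r : ℕ)
    (htype : ∀ r' ≤ r, ∀ F : Fin q → MvPolynomial (Fin (n + 1)) GG,
      (∀ i, (F i).IsHomogeneous (d i)) → sp d F h ≠ 0 →
      TypeIneqG κ D Z F ea eb (r' + (ν + 1))) :
    QQG b hb κ Z d h ea eb Pu A0 B ε r := by
  induction r using Nat.strong_induction_on with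
  | _ r ih =>
    exact step_QQG b hb hbi D hD d Z κ hκ0 h ea eb hab Pu A0 hA0 B hB ε hε r (htype r le_rfl)
      fun r' hr' => ih r' hr' fun r'' hr'' => htype r'' (hr''.trans hr'.le)

end Pool.Agent.Q51.VZ
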