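import Mathlib
import Pool.Agent.Q51.VZ.Asm

set_option autoImplicit false
set_option maxHeartbeats 1000000

/-!
# The uniform inequality with explicit dependence on the sizes of the coefficients
-/

namespace Pool.Agent.Q51.VZ

open MvPolynomial Pool.Agent.TH551.SU
open Pool.Agent.TH551.SU.SUI Pool.Agent.Y724.Vj Pool.Agent.TH551.SU.CRV
open Pool.Agent.H533R3.SL Pool.Agent.Q51.HG Pool.Agent.Q51.VX Pool.Agent.Q51.VY
open Pool.Agent.TH182.VD (CI)

variable {n q ν : ℕ}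

/-- `x` and `z` are sums of `r` units with coefficients of size at most `M` -/
def ShortT {s n ν : ℕ} (b : Fin s → ℕ) (r : ℕ) (M : ℝ) (x : Fin (n + 1) → ℤ)
    (z : Fin ν → ℤ) : Prop :=
  ∃ (u : Fin r → ℚ) (m : Fin r → Fin (n + 1) → ℤ) (m' : Fin r → Fin ν → ℤ),
    (∀ j, IsSU b (u j)) ∧ (∀ j i, |(m j i : ℝ)| ≤ M) ∧
    (∀ j l', |(m' j l' : ℝ)| ≤ M) ∧ (∀ i, (x i : ℚ) = ∑ j, u j * m j i) ∧
    ∀ l', (z l' : ℚ) = ∑ j, u j * m' j l'

/-- **The truncated inequality, uniform in the pair and in the size of the coefficients of the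
sums.** -/
theorem pairsGT (d : Fin q → ℕ) (Z : Finset (Fin q)) (ex : Fin q → Fin ν → ℕ)
    (hex : ∀ l, ∃ i, i ∉ Z ∧ ex i l ≠ 0) (r : ℕ) :
    ∃ h : MvPolynomial (CI n d) ℤ, h ≠ 0 ∧ ∀ (s : ℕ) (b : Fin s → ℕ)
      (_ : ∀ v, (b v).Prime), Function.Injective b → ∀ ε : ℝ, 0 < ε →
      ∃ A : ℝ, 0 ≤ A ∧ ∀ (F : Fin q → MvPolynomial (Fin (n + 1)) ℤ) (x : Fin (n + 1) → ℤ)
        (u : Fin q → ℚ) (z : Fin ν → ℤ) (T M : ℝ), 1 ≤ T → 1 ≤ M →
        (∀ i, (F i).IsHomogeneous (d i)) → sp d F h ≠ 0 →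
        (∀ i α, |((coeff α (F i) : ℤ) : ℝ)| ≤ T) →
        Finset.univ.gcd x = 1 → (∀ i ∈ Z, eval x (F i) = 0) →
        (∀ i, i ∉ Z → IsSU b (u i)) →
        (∀ i, i ∉ Z → ((eval x (F i) : ℤ) : ℚ) = u i * ∏ l, (z l : ℚ) ^ ex i l) →
        (∀ l, z l ≠ 0) → (∀ l v, ¬ (b v : ℤ) ∣ z l) → ShortT b r M x z →
        (((∑ i, (d i : ℤ)) + Z.card - 2 * n : ℤ) : ℝ) * Real.log (hh x) ≤
          ∑ l, Real.log |(z l : ℝ)| + ε * Real.log (hh x) +
            A * (1 + Real.log T + Real.log M) := by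
  classical
  have hz1 : ∀ (z : Fin ν → ℤ), (∀ l, z l ≠ 0) → 0 ≤ ∑ l, Real.log |(z l : ℝ)| := fun z hz =>
    Finset.sum_nonneg fun l _ => Real.log_nonneg (by exact_mod_cast Int.one_le_abs (hz l))
  by_cases hκ0 : 0 ≤ (∑ i, (d i : ℤ)) + Z.card - 2 * n
  swap
  · refine ⟨1, one_ne_zero, fun s b hb hbi ε hε => ⟨0, le_refl 0, ?_⟩⟩
    intro F x u z T M _ _ _ _ _ hprim _ _ _ hz0 _ _
    push Not at hκ0
    have h1 : (((∑ i, (d i : ℤ)) + Z.card - 2 * n : ℤ) : ℝ) ≤ 0 := by exact_mod_cast hκ0.le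
    have h2 : 0 ≤ Real.log (hh x) := Real.log_nonneg (by exact_mod_cast hh_pos x hprim)
    have h3 := hz1 z hz0
    have h4 := mul_nonpos_of_nonpos_of_nonneg h1 h2
    have h5 : 0 ≤ ε * Real.log (hh x) := by positivity
    linarith
  obtain ⟨h, h0, hh1⟩ := pairsG d Z ex hex hκ0 r
  refine ⟨h, h0, fun s b hb hbi ε hε => ?_⟩
  obtain ⟨δ, C0, hδ, hmain⟩ := hh1 s b hb hbi 1 ε le_rfl hε
  set κ : ℝ := (((∑ i, (d i : ℤ)) + Z.card - 2 * n : ℤ) : ℝ) with hκ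
  have hκ1 : 0 ≤ κ := by
    rw [hκ]
    exact_mod_cast hκ0
  refine ⟨|C0| + κ / δ, by positivity, ?_⟩
  intro F x u z T M hT hM hF hsp hFT hprim hxZ hu hxF hz0 hzS hsh
  have hH1 : (1 : ℝ) ≤ (hh x : ℝ) := by exact_mod_cast hh_pos x hprim
  have hlog : 0 ≤ Real.log (hh x) := Real.log_nonneg hH1
  have hlT : 0 ≤ Real.log T := Real.log_nonneg hT
  have hlM : 0 ≤ Real.log M := Real.log_nonneg hM
  have hz2 := hz1 z hz0
  have hεl : 0 ≤ ε * Real.log (hh x) := by positivity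
  have hκδ : 0 ≤ κ / δ := by positivity
  by_cases hcase : T ≤ (hh x : ℝ) ^ δ ∧ M ≤ (hh x : ℝ) ^ δ
  · obtain ⟨t, a, c, e1, e2, e3, e4, e5⟩ := hsh
    have key := hmain F x u z hF hsp (fun i α => by
        rw [one_mul]
        exact (hFT i α).trans hcase.1) hprim hxZ hu hxF hz0 hzS
      ⟨t, a, c, e1, fun j i => by
        rw [one_mul]
        exact (e2 j i).trans hcase.2, fun j l => by
        rw [one_mul]
        exact (e3 j l).trans hcase.2, e4, e5⟩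
    have h1 := le_abs_self C0
    have h2 : 0 ≤ |C0| := abs_nonneg C0
    have h3 : |C0| ≤ (|C0| + κ / δ) * (1 + Real.log T + Real.log M) := by nlinarith
    linarith
  · have hH0 : (0 : ℝ) < (hh x : ℝ) := by linarith
    have h1 : δ * Real.log (hh x) ≤ Real.log T + Real.log M := by
      rw [not_and_or, not_le, not_le] at hcase
      rcases hcase with h2 | h2
      · have h3 := Real.log_le_log (Real.rpow_pos_of_pos hH0 δ) h2.le
        rw [Real.log_rpow hH0] at h3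
        linarith
      · have h3 := Real.log_le_log (Real.rpow_pos_of_pos hH0 δ) h2.le
        rw [Real.log_rpow hH0] at h3
        linarith
    have h2 : κ * Real.log (hh x) = κ / δ * (δ * Real.log (hh x)) := by
      field_simp
    have h3 := mul_le_mul_of_nonneg_left h1 hκδ
    have h4 : κ / δ * (Real.log T + Real.log M) ≤
        (|C0| + κ / δ) * (1 + Real.log T + Real.log M) := by
      have h5 : 0 ≤ |C0| := abs_nonneg C0
      nlinarith [mul_nonneg h5 hlT, mul_nonneg h5 hlM]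
    rw [h2]
    linarith

end Pool.Agent.Q51.VZ
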